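import Pool.Agent.TH823.Fam.Fam2

set_option autoImplicit false

/-! Joint correlations of products of von Mangoldt functions of linear forms with a bounded function with small
exponential sums, for all but few shifts of a family of nearly minimal additive energy. -/

namespace Pool.Agent.Y841.TC
open Finset
open Pool.Agent.H373R2.T7 (SupSmall exI energy ev_L')

/-- the bound for the values of the von Mangoldt function -/
lemma lam_le (B N a h n : ℕ) (hN : B + 2 ≤ N) (hlogB : ((B + 2 : ℕ) : ℝ) ≤ Real.log N) (ha : a ≤ N ^ B) (hh : h ≤ N ^ B)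
    (hn : n ≤ B * N) : |ArithmeticFunction.vonMangoldt (a * n + h)| ≤ Real.log N ^ 2 := by
  have hlog1 : 1 ≤ Real.log N := by
    have : (1 : ℝ) ≤ ((B + 2 : ℕ) : ℝ) := by exact_mod_cast (by omega : 1 ≤ B + 2)
    linarith
  rw [abs_of_nonneg ArithmeticFunction.vonMangoldt_nonneg]
  refine ArithmeticFunction.vonMangoldt_le_log.trans ?_
  have e1 : a * n + h ≤ N ^ (B + 2) := by
    calc a * n + h ≤ N ^ B * (B * N) + N ^ B := add_le_add (Nat.mul_le_mul ha hn) hh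
      _ ≤ N ^ B * (B * N) + N ^ B * N := by
          apply add_le_add le_rfl (Nat.le_mul_of_pos_right _ (by omega))
      _ = N ^ B * ((B + 1) * N) := by ring
      _ ≤ N ^ B * (N * N) := Nat.mul_le_mul_left _ (Nat.mul_le_mul_right _ (by omega))
      _ = _ := by rw [pow_add]; ring
  rcases Nat.eq_zero_or_pos (a * n + h) with h0 | h0
  · rw [h0]
    simp only [Nat.cast_zero, Real.log_zero]
    positivity
  · have e2 : Real.log ((a * n + h : ℕ) : ℝ) ≤ Real.log ((N ^ (B + 2) : ℕ) : ℝ) :=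
      Real.log_le_log (by exact_mod_cast h0) (by exact_mod_cast e1)
    refine e2.trans ?_
    rw [Nat.cast_pow, Real.log_pow, pow_two]
    exact mul_le_mul_of_nonneg_right hlogB (by linarith)

/-- families of shifts with nearly minimal energy -/
theorem fam_lin (f : ℕ → ℂ) (hf : ∀ n, ‖f n‖ ≤ 1) (hsup : SupSmall f) (r p B C T U : ℕ) :
    ∃ N₀ : ℕ, ∀ N : ℕ, N₀ ≤ N → ∀ (x : ℕ) (s : ℕ → ℤ), (∀ m ∈ Icc 1 x, |s m| ≤ B * N) →
    (energy p x s : ℝ) * N ≤ Real.log N ^ C * (x : ℝ) ^ (2 * p) →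
    ∀ L : ℕ, (L : ℝ) ≤ Real.log N ^ T → ∀ (α : Fin L → ℕ) (a h : Fin L → Fin r → ℕ) (θ : Fin L → ℕ → ℂ),
      (∀ l, 1 ≤ α l) → (∀ l i, a l i ≤ N ^ B ∧ h l i ≤ N ^ B) → (∀ l n, ‖θ l n‖ ≤ 1) →
    ∀ E : ℕ → Prop, [DecidablePred E] →
    (∀ m ∈ Icc 1 x, E m → ∃ l, ∃ X : ℕ, α l * X ≤ B * N ∧ (N : ℝ) / Real.log N ^ U <
      ‖∑ n ∈ Icc 1 X, θ l n * (∏ i, (ArithmeticFunction.vonMangoldt (a l i * n + h l i) : ℂ)) *
        exI f (((α l * n : ℕ) : ℤ) + s m)‖) →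
    (((Icc 1 x).filter E).card : ℝ) ≤ x / Real.log N ^ U := by
  classical
  obtain ⟨N₀, h0⟩ := Pool.Agent.TH823.Fam.fam_all f hf hsup p B C (T + 2 * r) U
  obtain ⟨N₁, h1⟩ := ev_L' ((B + 2 : ℕ) : ℝ)
  refine ⟨N₀ + N₁ + B + 2, fun N hN x s hs hE L hL α a h θ hα hah hθ E _ hEm => ?_⟩
  have hlogB : ((B + 2 : ℕ) : ℝ) ≤ Real.log N := h1 N (by omega)
  have hlog1 : 1 ≤ Real.log N := by
    have : (1 : ℝ) ≤ ((B + 2 : ℕ) : ℝ) := by exact_mod_cast (by omega : 1 ≤ B + 2)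
    linarith
  refine h0 N (by omega) x s hs hE L (hL.trans (pow_le_pow_right₀ hlog1 (by omega)))
    (fun l => if hl : l < L then α ⟨l, hl⟩ else 1)
    (fun l n => if hl : l < L then θ ⟨l, hl⟩ n *
      ∏ i, (ArithmeticFunction.vonMangoldt (a ⟨l, hl⟩ i * n + h ⟨l, hl⟩ i) : ℂ) else 0)
    (fun l hl => by simp only [hl, dif_pos]; exact hα _) ?_ E ?_
  · intro l hl n hn hαn
    simp only [hl, dif_pos] at hαn ⊢
    have hnB : n ≤ B * N := le_trans (Nat.le_mul_of_pos_left _ (hα ⟨l, hl⟩)) hαn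
    rw [norm_mul, norm_prod]
    have e1 : ∏ i, ‖(ArithmeticFunction.vonMangoldt (a ⟨l, hl⟩ i * n + h ⟨l, hl⟩ i) : ℂ)‖ ≤
        ∏ _i : Fin r, Real.log N ^ 2 := by
      apply prod_le_prod (fun _ _ => norm_nonneg _)
      intro i _
      rw [Complex.norm_real, Real.norm_eq_abs]
      exact lam_le B N _ _ _ (by omega) hlogB (hah _ _).1 (hah _ _).2 hnB
    rw [prod_const, card_univ, Fintype.card_fin, ← pow_mul] at e1
    calc _ ≤ 1 * Real.log N ^ (2 * r) := mul_le_mul (hθ _ _) e1 (prod_nonneg fun _ _ => norm_nonneg _) zero_le_one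
      _ = Real.log N ^ (2 * r) := one_mul _
      _ ≤ _ := pow_le_pow_right₀ hlog1 (by omega)
  · intro m hm hEm'
    obtain ⟨l, X, hX, h2⟩ := hEm m hm hEm'
    refine ⟨l, l.2, X, ?_, ?_⟩
    · simp only [l.2, dif_pos]
      exact hX
    · simp only [l.2, dif_pos]
      exact h2

/-- polynomial shifts -/
theorem fam_pol (f : ℕ → ℂ) (hf : ∀ n, ‖f n‖ ≤ 1) (hsup : SupSmall f) (r B C T U : ℕ) (P : Polynomial ℤ)
    (hP : 1 ≤ P.natDegree) :
    ∃ N₀ : ℕ, ∀ N : ℕ, N₀ ≤ N → ∀ x : ℕ, x ^ P.natDegree ≤ B * N →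
    (N : ℝ) ≤ Real.log N ^ C * (x : ℝ) ^ P.natDegree → ∀ c : ℤ, |c| ≤ B * N →
    ∀ L : ℕ, (L : ℝ) ≤ Real.log N ^ T → ∀ (α : Fin L → ℕ) (a h : Fin L → Fin r → ℕ) (θ : Fin L → ℕ → ℂ),
      (∀ l, 1 ≤ α l) → (∀ l i, a l i ≤ N ^ B ∧ h l i ≤ N ^ B) → (∀ l n, ‖θ l n‖ ≤ 1) →
    ∀ E : ℕ → Prop, [DecidablePred E] →
    (∀ m ∈ Icc 1 x, E m → ∃ l, ∃ X : ℕ, α l * X ≤ B * N ∧ (N : ℝ) / Real.log N ^ U <
      ‖∑ n ∈ Icc 1 X, θ l n * (∏ i, (ArithmeticFunction.vonMangoldt (a l i * n + h l i) : ℂ)) *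
        exI f (((α l * n : ℕ) : ℤ) + (c + P.eval (m : ℤ)))‖) →
    (((Icc 1 x).filter E).card : ℝ) ≤ x / Real.log N ^ U := by
  classical
  obtain ⟨p, B', hB', N₁, h1⟩ := Pool.Agent.TH823.Fam.poly_family P hP B C
  obtain ⟨N₀, h0⟩ := fam_lin f hf hsup r p B' (C + 1) T U
  refine ⟨N₀ + N₁ + 1, fun N hN x hx1 hx2 c hc L hL α a h θ hα hah hθ E _ hEm => ?_⟩
  obtain ⟨h3, h4⟩ := h1 N (by omega) x hx1 hx2 c hc
  have hNB : N ^ B ≤ N ^ B' := Nat.pow_le_pow_right (by omega) hB'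
  refine h0 N (by omega) x (fun m => c + P.eval (m : ℤ)) h3 h4 L hL α a h θ hα
    (fun l i => ⟨(hah l i).1.trans hNB, (hah l i).2.trans hNB⟩) hθ E ?_
  intro m hm hEm'
  obtain ⟨l, X, hX, h2⟩ := hEm m hm hEm'
  exact ⟨l, X, hX.trans (Nat.mul_le_mul_right _ hB'), h2⟩

end Pool.Agent.Y841.TC
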